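import Pool.Agent.T9h36.SQ.All

/-!
# The choice of the parameters
-/

set_option autoImplicit false

namespace Pool.Agent.T9h36.SQ

open Finset Pool.Agent.T9h35.Sharp Pool.Agent.T9h35.NearBF Pool.Agent.T9h36.SN
open Pool.Agent.T9h34 (Circuit)

theorem prob_nonneg {Ω : Type} [Fintype Ω] (p : Ω → Prop) : 0 ≤ prob p := by
  unfold prob
  positivity

theorem main_all (ε : ℝ) (hε : 0 < ε) : ∃ A : ℕ, 0 < A ∧ ∀ n W g : ℕ, W ≤ n →
    g + A * (Nat.log 2 n + 1) ≤ W →
    ∃ 𝒞 : Finset (Clause n), 𝒞.card ≤ 2 ^ W ∧ (∀ c ∈ 𝒞, c.card ≤ W) ∧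
      ∃ (Ω : Type) (_ : Fintype Ω) (_ : Nonempty Ω) (G : Ω → ℕ → Finset (Clause n))
        (F₁ : Ω × (Fin n → Bool) → Finset (Clause n)),
        (∀ ω i, G ω i ⊆ 𝒞 ∧ Unsat (G ω i) ∧ G ω (i + 1) ⊆ G ω i) ∧
        (∀ p, F₁ p ⊆ 𝒞 ∧ Satisfies p.2 (F₁ p)) ∧
        ∀ C : Circuit (Clause n),
          prob (fun p : Ω × Fin (2 ^ g) => C.eval (indicator (G p.1 (p.2.val + 1))) = true) +
            prob (fun p => C.eval (indicator (F₁ p)) = false) ≤
          1 + prob (fun p : Ω × Fin (2 ^ g) => C.reads (indicator (G p.1 p.2.val)) ≠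
              C.reads (indicator (G p.1 (p.2.val + 1)))) +
            (C.size + C.numReads + 1 : ℕ) * 2 ^ g / 2 ^ ((1 - ε) * n) := by
  obtain ⟨B, hB⟩ : ∃ B, B = ⌈28 / ε⌉₊ + 10 := ⟨_, rfl⟩
  have hB0 : 28 / ε ≤ B := by
    have h := Nat.le_ceil (28 / ε)
    have h2 : (B : ℝ) = ⌈28 / ε⌉₊ + 10 := by exact_mod_cast hB
    linarith
  have hBε : 28 ≤ ε * B := by
    rw [div_le_iff₀ hε] at hB0
    linarith
  have hB10 : 10 ≤ B := by omega
  obtain ⟨A₀, hA₀⟩ : ∃ A₀, A₀ = ⌈(5 * B + 3) / ε⌉₊ := ⟨_, rfl⟩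
  have hA₀ε : 5 * (B : ℝ) + 3 ≤ ε * A₀ := by
    have h : (5 * (B : ℝ) + 3) / ε ≤ A₀ := by
      rw [hA₀]
      exact Nat.le_ceil _
    rw [div_le_iff₀ hε] at h
    linarith
  refine ⟨A₀ + (5 * B + 3), by omega, ?_⟩
  intro n W g hWn hgW
  obtain ⟨L, hL⟩ : ∃ L, L = Nat.log 2 n + 1 := ⟨_, rfl⟩
  rw [← hL] at hgW
  have hAW : (A₀ + (5 * B + 3)) * L ≤ W := (Nat.le_add_left _ _).trans hgW
  have hL1 : 1 ≤ L := by omega
  have hnL : n < 2 ^ L := by
    rw [hL]
    exact Nat.lt_pow_succ_log_self (by norm_num) n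
  obtain ⟨b, hb⟩ : ∃ b, b = B * L := ⟨_, rfl⟩
  have hLb10 : 10 * L ≤ b := by
    rw [hb]
    exact Nat.mul_le_mul_right _ hB10
  have hLb : L ≤ b := by omega
  have hb1 : 1 ≤ b := by omega
  have hA₀W : A₀ * L ≤ W := (Nat.mul_le_mul_right _ (Nat.le_add_right _ _)).trans hAW
  have hBgW : g + (5 * B + 3) * L ≤ W :=
    (Nat.add_le_add_left (Nat.mul_le_mul_right _ (Nat.le_add_left _ _)) g).trans hgW
  have hBW' : g + (5 * b + 3 * L) ≤ W := by
    have : (5 * B + 3) * L = 5 * b + 3 * L := by rw [hb]; ring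
    omega
  have hWn' : (W : ℝ) ≤ n := by exact_mod_cast hWn
  have hεn : 5 * (b : ℝ) + 3 * L ≤ ε * n := by
    have h1 : (A₀ : ℝ) * L ≤ W := by exact_mod_cast hA₀W
    have h2 : (b : ℝ) = B * L := by exact_mod_cast hb
    have h3 : (0 : ℝ) ≤ L := Nat.cast_nonneg L
    calc 5 * (b : ℝ) + 3 * L = (5 * B + 3) * L := by rw [h2]; ring
      _ ≤ ε * A₀ * L := mul_le_mul_of_nonneg_right hA₀ε h3
      _ = ε * (A₀ * L) := by ring
      _ ≤ ε * n := mul_le_mul_of_nonneg_left (h1.trans hWn') hε.le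
  -- the way to cut
  obtain ⟨m, r₀, hmg, hcut, hr₀⟩ : ∃ m r₀, 1 ≤ m ∧ g + (m + 1) * b + r₀ = n ∧ r₀ < b := by
    have h2b : 2 * b ≤ n - g := by omega
    have h1 : 2 ≤ (n - g) / b := (Nat.le_div_iff_mul_le (by omega)).2 h2b
    refine ⟨(n - g) / b - 1, (n - g) % b, by omega, ?_, Nat.mod_lt _ (by omega)⟩
    have h2 := Nat.div_add_mod (n - g) b
    have h3 : (n - g) / b - 1 + 1 = (n - g) / b := by omega
    rw [h3, mul_comm]
    omega
  obtain ⟨S⟩ := exists_cut n g (m + 1) b r₀ hcut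
  have hmn : (m + 1) * b ≤ n := by omega
  have hmn1 : m + 1 ≤ n := (Nat.le_mul_of_pos_right _ hb1).trans hmn
  have : Nonempty (Fin m) := ⟨⟨0, by omega⟩⟩
  refine ⟨S.clauses, ?_, ?_, Om g m b, inferInstance, inferInstance, GG S, F1 S, ?_, ?_, ?_⟩
  · refine S.card_clauses.trans ?_
    calc 2 ^ g * ((m + 1) * 2 ^ b) ^ 2 ≤ 2 ^ g * (2 ^ L * 2 ^ b) ^ 2 := by
          apply Nat.mul_le_mul_left
          apply Nat.pow_le_pow_left
          apply Nat.mul_le_mul_right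
          omega
      _ = 2 ^ (g + (2 * L + 2 * b)) := by ring
      _ ≤ 2 ^ W := Nat.pow_le_pow_right (by norm_num) (by omega)
  · intro c hc
    have := S.width_clauses c hc
    omega
  · intro ω i
    refine ⟨S.formula_subset _, ?_, ?_⟩
    · rw [GG, S.unsat_formula]
      exact fun β => not_TK_path hmg _ _ β
    · exact S.formula_anti (pathY_mono negG ω (Nat.le_succ i))
  · intro p
    exact ⟨S.formula_subset _, satisfies_F1 _ p⟩
  · intro C
    obtain ⟨N, hN⟩ : ∃ N, N = C.size + C.numReads + 1 := ⟨_, rfl⟩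
    rw [← hN]
    have hN1' : 1 ≤ N := by omega
    have hN1 : (1 : ℝ) ≤ N := by exact_mod_cast hN1'
    by_cases htriv : n ≤ g + 3 * b
    · have h2 : (2 : ℝ) ^ ((1 - ε) * n) ≤ N * 2 ^ g := by
        have h3 : (n : ℝ) ≤ g + 3 * b := by exact_mod_cast htriv
        calc (2 : ℝ) ^ ((1 - ε) * n) ≤ 2 ^ (g : ℝ) := by
              apply Real.rpow_le_rpow_of_exponent_le (by norm_num)
              have h4 : (0 : ℝ) ≤ L := Nat.cast_nonneg L
              have h5 : (0 : ℝ) ≤ b := Nat.cast_nonneg b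
              linarith
          _ = 1 * 2 ^ g := by rw [Real.rpow_natCast, one_mul]
          _ ≤ N * 2 ^ g := by gcongr
      have h3 : (1 : ℝ) ≤ N * 2 ^ g / 2 ^ ((1 - ε) * n) := by
        rw [one_le_div (by positivity)]
        exact h2
      have h4 := prob_le_one (fun p : Om g m b × Fin (2 ^ g) =>
        C.eval (indicator (GG S p.1 (p.2.val + 1))) = true)
      have h5 := prob_le_one (fun p => C.eval (indicator (F1 S p)) = false)
      have h6 := prob_nonneg (fun p : Om g m b × Fin (2 ^ g) =>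
        C.reads (indicator (GG S p.1 p.2.val)) ≠ C.reads (indicator (GG S p.1 (p.2.val + 1))))
      linarith
    · push Not at htriv
      have hm2 : 2 ≤ m := by
        by_contra hcon
        have h1 : m = 1 := by omega
        rw [h1] at hcut
        omega
      have hF4 := core_all S hcut hb1 hm2 (4 * n + 3) (by omega)
        (group_bound hnL hL1 hmn1 hLb10) C
      rw [← hN] at hF4
      refine hF4.trans (add_le_add_right (final_estimate (L := L) hcut hN1'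
        (loss_bound hnL hL1 hmn1) (NS_bound hnL hLb hmn hb1) ?_) _)
      have h1 : ((14 * L * (m + 1) : ℕ) : ℝ) ≤ ε * n / 2 := by
        have h3 : ((m + 1 : ℕ) : ℝ) * (B * L) ≤ n := by
          have h2 := hmn
          rw [hb] at h2
          exact_mod_cast h2
        have h4 : (0 : ℝ) ≤ ((m + 1 : ℕ) : ℝ) * L := by positivity
        have h5 : 28 * (((m + 1 : ℕ) : ℝ) * L) ≤ ε * n := by
          calc 28 * (((m + 1 : ℕ) : ℝ) * L) ≤ ε * B * (((m + 1 : ℕ) : ℝ) * L) :=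
                mul_le_mul_of_nonneg_right hBε h4
            _ = ε * (((m + 1 : ℕ) : ℝ) * (B * L)) := by ring
            _ ≤ ε * n := mul_le_mul_of_nonneg_left h3 hε.le
        have h6 : ((14 * L * (m + 1) : ℕ) : ℝ) = 14 * (((m + 1 : ℕ) : ℝ) * L) := by
          push_cast
          ring
        rw [h6]
        linarith
      have h2 : ((r₀ + 1 : ℕ) : ℝ) ≤ ε * n / 2 := by
        have h3 : ((r₀ + 1 : ℕ) : ℝ) ≤ b := by exact_mod_cast hr₀
        have h4 : (0 : ℝ) ≤ L := Nat.cast_nonneg L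
        have h5 : (0 : ℝ) ≤ b := Nat.cast_nonneg b
        linarith
      have h3 : ((14 * L * (m + 1) + r₀ + 1 : ℕ) : ℝ) =
          ((14 * L * (m + 1) : ℕ) : ℝ) + ((r₀ + 1 : ℕ) : ℝ) := by
        push_cast
        ring
      rw [h3]
      linarith

end Pool.Agent.T9h36.SQ
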