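import Pool.Agent.T9h36.SQ.Defs
import Pool.Agent.T9h34.Approx
import Pool.Agent.T9lead.LN.Circ

/-!
# The upper bound for CNF-SAT
-/

set_option autoImplicit false

namespace Pool.Agent.T9h36.SQ

open Pool.Agent.T9h34

section translate

variable {ι : Type}

/-- Translation of a source. -/
def toW : Src ι → LN.Wire ι
  | .input i => .input i
  | .const b => .const b
  | .gate j => .gate j

/-- Translation of a gate. -/
def toG : Gate ι → LN.Gate ι
  | .and a b => .and (toW a) (toW b)
  | .or a b => .or (toW a) (toW b)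
  | .other args _ => .not (toW (args.headD (.const false)))

/-- Translation of a source. -/
def ofW : LN.Wire ι → Src ι
  | .input i => .input i
  | .const b => .const b
  | .gate j => .gate j

/-- Translation of a gate. -/
def ofG : LN.Gate ι → Gate ι
  | .and a b => .and (ofW a) (ofW b)
  | .or a b => .or (ofW a) (ofW b)
  | .not a => .other [ofW a] (fun l => !(l.headD false))

theorem eval_toW (x : ι → Bool) (vals : List Bool) (a : Src ι) :
    (toW a).eval x vals = a.eval x vals := by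
  cases a <;> rfl

theorem eval_ofW (x : ι → Bool) (vals : List Bool) (a : LN.Wire ι) :
    (ofW a).eval x vals = a.eval x vals := by
  cases a <;> rfl

theorem eval_ofG (x : ι → Bool) (vals : List Bool) (g : LN.Gate ι) :
    (ofG g).eval x vals = g.eval x vals := by
  cases g with
  | and a b => simp only [ofG, Gate.eval, LN.Gate.eval, eval_ofW]
  | or a b => simp only [ofG, Gate.eval, LN.Gate.eval, eval_ofW]
  | not a => simp [ofG, Gate.eval, LN.Gate.eval, eval_ofW]

theorem eval_toG (x : ι → Bool) (vals : List Bool) (g : Gate ι)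
    (hg : g.isOther = true → ∃ a, g = .other [a] (fun l => !(l.headD false))) :
    (toG g).eval x vals = g.eval x vals := by
  cases g with
  | and a b => simp only [toG, Gate.eval, LN.Gate.eval, eval_toW]
  | or a b => simp only [toG, Gate.eval, LN.Gate.eval, eval_toW]
  | other args φ =>
    obtain ⟨a, ha⟩ := hg rfl
    rw [ha]
    simp [toG, Gate.eval, LN.Gate.eval, eval_toW]

theorem ln_run_append (x : ι → Bool) (gs : List (LN.Gate ι)) (g : LN.Gate ι) :
    LN.run x (gs ++ [g]) = LN.run x gs ++ [g.eval x (LN.run x gs)] := by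
  simp [LN.run, List.foldl_append]

theorem run_ofG (x : ι → Bool) (gs : List (LN.Gate ι)) :
    runGates x (gs.map ofG) = LN.run x gs := by
  induction gs using List.reverseRecOn with
  | nil => rfl
  | append_singleton gs g ih =>
    rw [List.map_append, List.map_singleton, runGates_append, ih, eval_ofG, ln_run_append]

theorem run_toG (x : ι → Bool) (gs : List (Gate ι))
    (hgs : ∀ g ∈ gs, g.isOther = true → ∃ a, g = .other [a] (fun l => !(l.headD false))) :
    LN.run x (gs.map toG) = runGates x gs := by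
  induction gs using List.reverseRecOn with
  | nil => rfl
  | append_singleton gs g ih =>
    rw [List.map_append, List.map_singleton, ln_run_append, ih (fun g' hg' => hgs g' (by simp [hg'])),
      eval_toG _ _ _ (hgs g (by simp)), runGates_append]

/-- Translation of a circuit. -/
def toC (C : Circuit ι) : LN.Circuit ι := ⟨C.gates.map toG, toW C.out⟩

/-- Translation of a circuit. -/
def ofC (C : LN.Circuit ι) : Circuit ι := ⟨C.gates.map ofG, ofW C.out⟩

theorem eval_toC (C : Circuit ι) (h : OnlyNots C) (x : ι → Bool) : (toC C).eval x = C.eval x := by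
  unfold toC LN.Circuit.eval Circuit.eval
  simp only
  rw [run_toG x _ h, eval_toW]

theorem eval_ofC (C : LN.Circuit ι) (x : ι → Bool) : (ofC C).eval x = C.eval x := by
  unfold ofC LN.Circuit.eval Circuit.eval
  simp only
  rw [run_ofG, eval_ofW]

theorem size_toC (C : Circuit ι) : (toC C).size = C.size := by
  simp [toC, LN.Circuit.size, Circuit.size]

theorem size_ofC (C : LN.Circuit ι) : (ofC C).size = C.size := by
  simp [ofC, LN.Circuit.size, Circuit.size]

theorem numOther_ofC (C : LN.Circuit ι) : (ofC C).numOther = C.nots := by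
  unfold ofC Circuit.numOther LN.Circuit.nots
  simp only
  rw [List.countP_map]
  congr 1
  funext g
  cases g <;> rfl

theorem onlyNots_ofC (C : LN.Circuit ι) : OnlyNots (ofC C) := by
  intro g hg h
  simp only [ofC, List.mem_map] at hg
  obtain ⟨g', _, rfl⟩ := hg
  cases g' with
  | and a b => simp [ofG, Gate.isOther] at h
  | or a b => simp [ofG, Gate.isOther] at h
  | not a => exact ⟨ofW a, rfl⟩

end translate

section monotone

variable {n M : ℕ}

theorem exists_bits (x : Fin M × (Fin n × Bool) → Bool) : ∃ φ : Formula n M, bits φ = x := by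
  refine ⟨fun j => Finset.univ.filter fun l => x (j, l) = true, ?_⟩
  funext p
  obtain ⟨j, l⟩ := p
  simp [bits]

theorem mono_of_decides {C : Circuit (Fin M × (Fin n × Bool))} (h : DecidesSat C) :
    Monotone C.eval := by
  intro x y hxy
  obtain ⟨φ, rfl⟩ := exists_bits x
  obtain ⟨ψ, rfl⟩ := exists_bits y
  by_cases h1 : C.eval (bits φ) = true
  · have h2 := (h φ).1 h1
    obtain ⟨α, hα⟩ := h2
    have h3 : C.eval (bits ψ) = true := by
      rw [h ψ]
      refine ⟨α, fun j => ?_⟩
      obtain ⟨l, hl, h4⟩ := hα j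
      refine ⟨l, ?_, h4⟩
      have h5 := hxy (j, l)
      simp only [bits, hl, decide_true] at h5
      have h6 := top_le_iff.1 h5
      simpa using h6
    rw [h1, h3]
  · have h2 : C.eval (bits φ) = false := by simpa using h1
    rw [h2]
    exact Bool.false_le _

end monotone

theorem card_bound (n W : ℕ) :
    Fintype.card (Fin (2 ^ W) × (Fin n × Bool)) + 1 ≤ 2 ^ (W + Nat.log 2 n + 2) := by
  simp only [Fintype.card_prod, Fintype.card_fin, Fintype.card_bool]
  have h1 : n < 2 ^ (Nat.log 2 n + 1) := Nat.lt_pow_succ_log_self (by norm_num) n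
  have h2 : 1 ≤ 2 ^ W := Nat.one_le_two_pow
  have h3 : 2 ^ (W + Nat.log 2 n + 2) = 2 ^ W * (2 ^ (Nat.log 2 n + 1) * 2) := by ring
  rw [h3]
  have h4 : n * 2 + 1 ≤ 2 ^ (Nat.log 2 n + 1) * 2 := by omega
  calc 2 ^ W * (n * 2) + 1 ≤ 2 ^ W * (n * 2) + 2 ^ W := by omega
    _ = 2 ^ W * (n * 2 + 1) := by ring
    _ ≤ _ := Nat.mul_le_mul_left _ h4

theorem upper (δ : ℝ) (hδ : 0 < δ) : ∃ B : ℕ, ∀ (n W : ℕ)
    (C : Circuit (Fin (2 ^ W) × (Fin n × Bool))), OnlyNots C → DecidesSat C →
    ∃ C' : Circuit (Fin (2 ^ W) × (Fin n × Bool)), OnlyNots C' ∧ DecidesSat C' ∧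
      C'.numOther ≤ W + Nat.log 2 (W + Nat.log 2 n + 3) + B ∧
      (C'.size : ℝ) ≤ (C.size + 1) * 2 ^ (4 * (W + Nat.log 2 n) + 14) * 2 ^ (δ * n) := by
  obtain ⟨B₁, hB₁⟩ := pow_unbounded_of_one_lt (1 / δ) (one_lt_two : (1 : ℝ) < 2)
  refine ⟨B₁ + 3, fun n W C hN hC => ?_⟩
  obtain ⟨L, hL⟩ : ∃ L, L = Nat.log 2 n := ⟨_, rfl⟩
  obtain ⟨w, hw⟩ : ∃ w, w = W + L + 2 := ⟨_, rfl⟩
  obtain ⟨q, hq⟩ : ∃ q, q = ⌊δ * n / ((w + 1 : ℕ) : ℝ)⌋₊ := ⟨_, rfl⟩
  obtain ⟨d, hd⟩ : ∃ d, d = Nat.log 2 q := ⟨_, rfl⟩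
  obtain ⟨N, hNdef⟩ : ∃ N, N = Fintype.card (Fin (2 ^ W) × (Fin n × Bool)) := ⟨_, rfl⟩
  have hcard : N + 1 ≤ 2 ^ w := by
    rw [hNdef, hw, hL]
    exact card_bound n W
  have hn0 : (0 : ℝ) ≤ n := Nat.cast_nonneg n
  have hw0 : (0 : ℝ) < ((w + 1 : ℕ) : ℝ) := by positivity
  have hDr : 2 ^ w ≤ 2 ^ d * 2 ^ (w - d) := by
    rw [← pow_add]
    exact Nat.pow_le_pow_right (by norm_num) (by omega)
  have hmono : Monotone (toC C).eval := by
    have h1 : (toC C).eval = C.eval := by
      funext x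
      exact eval_toC C hN x
    rw [h1]
    exact mono_of_decides hC
  obtain ⟨C', e1, e2, e3⟩ := LN.few_nots (toC C) hmono (2 ^ d) (w - d) (by
    rw [← hNdef]
    exact hcard.trans hDr)
  rw [← hNdef] at e3
  refine ⟨ofC C', onlyNots_ofC C', ?_, ?_, ?_⟩
  · intro φ
    rw [eval_ofC, e1, eval_toC C hN]
    exact hC φ
  · rw [numOther_ofC]
    refine e2.trans ?_
    -- the number of NOT gates
    have h1 : δ * n / ((w + 1 : ℕ) : ℝ) < ((2 ^ (d + 1) : ℕ) : ℝ) := by
      have h2 : δ * n / ((w + 1 : ℕ) : ℝ) < q + 1 := by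
        rw [hq]
        exact Nat.lt_floor_add_one _
      have h3 : q < 2 ^ (d + 1) := by
        rw [hd]
        exact Nat.lt_pow_succ_log_self (by norm_num) q
      have h4 : ((q : ℝ) + 1) ≤ ((2 ^ (d + 1) : ℕ) : ℝ) := by exact_mod_cast h3
      linarith
    rw [div_lt_iff₀ hw0] at h1
    have h2 : (n : ℝ) < ((2 ^ B₁ * (2 ^ (d + 1) * (w + 1)) : ℕ) : ℝ) := by
      push_cast at h1 ⊢
      have h3 : (n : ℝ) ≤ 2 ^ B₁ * (δ * n) := by
        have h4 : 1 ≤ 2 ^ B₁ * δ := by
          rw [div_lt_iff₀ hδ] at hB₁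
          linarith
        nlinarith
      have h5 : (2 : ℝ) ^ B₁ * (δ * n) < 2 ^ B₁ * (2 ^ (d + 1) * (w + 1)) :=
        mul_lt_mul_of_pos_left h1 (by positivity)
      linarith
    have h3 : n < 2 ^ B₁ * (2 ^ (d + 1) * (w + 1)) := by exact_mod_cast h2
    have h4 : w + 1 < 2 ^ (Nat.log 2 (w + 1) + 1) := Nat.lt_pow_succ_log_self (by norm_num) _
    have h5 : n < 2 ^ (B₁ + (d + 1) + (Nat.log 2 (w + 1) + 1)) := by
      calc n < 2 ^ B₁ * (2 ^ (d + 1) * (w + 1)) := h3
        _ ≤ 2 ^ B₁ * (2 ^ (d + 1) * 2 ^ (Nat.log 2 (w + 1) + 1)) :=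
          Nat.mul_le_mul_left _ (Nat.mul_le_mul_left _ h4.le)
        _ = _ := by
          rw [pow_add 2 (B₁ + (d + 1)), pow_add 2 B₁]
          ring
    have h6 : L < B₁ + (d + 1) + (Nat.log 2 (w + 1) + 1) := by
      rw [hL]
      rcases Nat.eq_zero_or_pos n with h | h
      · rw [h]
        simp
      · exact Nat.log_lt_of_lt_pow (by omega) h5
    have h7 : W + Nat.log 2 n + 3 = w + 1 := by omega
    rw [h7]
    omega
  · rw [size_ofC]
    rw [size_toC] at e3
    obtain ⟨Q, hQ⟩ : ∃ Q, Q = ∑ i ∈ Finset.range (2 ^ d), N.choose i := ⟨_, rfl⟩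
    rw [← hQ] at e3
    have hQ1 : (Q : ℝ) ≤ 2 ^ (δ * n) := by
      rcases Nat.eq_zero_or_pos q with h | h
      · have h1 : Q = 1 := by
          rw [hQ, hd, h]
          simp
        rw [h1]
        have : (1 : ℝ) ≤ 2 ^ (δ * n) := Real.one_le_rpow (by norm_num) (by positivity)
        exact_mod_cast this
      · have h1 : 2 ^ d ≤ q := by
          rw [hd]
          exact Nat.pow_log_le_self 2 (by omega)
        have h2 : (q : ℝ) ≤ δ * n / ((w + 1 : ℕ) : ℝ) := by
          rw [hq]
          exact Nat.floor_le (by positivity)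
        have h3 : (((w + 1) * 2 ^ d : ℕ) : ℝ) ≤ δ * n := by
          rw [le_div_iff₀ hw0] at h2
          have h4 : ((2 ^ d : ℕ) : ℝ) ≤ q := by exact_mod_cast h1
          push_cast at h2 h4 ⊢
          nlinarith
        have h4 : Q ≤ 2 ^ ((w + 1) * 2 ^ d) := by
          calc Q ≤ 2 ^ d * (N + 1) ^ (2 ^ d) := by
                rw [hQ]
                calc ∑ i ∈ Finset.range (2 ^ d), N.choose i
                    ≤ ∑ _i ∈ Finset.range (2 ^ d), (N + 1) ^ (2 ^ d) := by
                      apply Finset.sum_le_sum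
                      intro i hi
                      calc N.choose i ≤ N ^ i := Nat.choose_le_pow N i
                        _ ≤ (N + 1) ^ i := Nat.pow_le_pow_left (Nat.le_succ N) i
                        _ ≤ (N + 1) ^ (2 ^ d) :=
                          Nat.pow_le_pow_right (Nat.succ_pos N) (Finset.mem_range.1 hi).le
                  _ = 2 ^ d * (N + 1) ^ (2 ^ d) := by simp
            _ ≤ 2 ^ (2 ^ d) * (2 ^ w) ^ (2 ^ d) :=
                Nat.mul_le_mul Nat.lt_two_pow_self.le (Nat.pow_le_pow_left hcard _)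
            _ = 2 ^ ((w + 1) * 2 ^ d) := by
                rw [← pow_mul, ← pow_add]
                congr 1
                ring
        calc (Q : ℝ) ≤ ((2 ^ ((w + 1) * 2 ^ d) : ℕ) : ℝ) := by exact_mod_cast h4
          _ = 2 ^ (((w + 1) * 2 ^ d : ℕ) : ℝ) := by
              rw [Real.rpow_natCast]
              push_cast
              rfl
          _ ≤ 2 ^ (δ * n) := Real.rpow_le_rpow_of_exponent_le (by norm_num) h3
    have h1 : C'.size ≤ (C.size + 1) * 2 ^ (4 * (W + L) + 14) * Q := by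
      refine e3.trans ?_
      apply Nat.mul_le_mul_right
      calc 40 * (N + 1) * (C.size + (N + 1) ^ 3)
          ≤ 2 ^ 6 * 2 ^ w * (C.size + (2 ^ w) ^ 3) := by
            apply Nat.mul_le_mul (Nat.mul_le_mul (by norm_num) hcard)
            exact Nat.add_le_add_left (Nat.pow_le_pow_left hcard 3) _
        _ ≤ 2 ^ 6 * 2 ^ w * ((C.size + 1) * (2 ^ w) ^ 3) := by
            apply Nat.mul_le_mul_left
            have h2 : 1 ≤ (2 ^ w) ^ 3 := Nat.one_le_pow _ _ (by positivity)
            nlinarith [Nat.zero_le C.size]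
        _ = (C.size + 1) * 2 ^ (4 * (W + L) + 14) := by
            have h2 : 4 * (W + L) + 14 = 6 + w + w * 3 := by omega
            rw [h2, pow_add, pow_add, pow_mul]
            ring
    rw [← hL]
    calc (C'.size : ℝ) ≤ (((C.size + 1) * 2 ^ (4 * (W + L) + 14) * Q : ℕ) : ℝ) := by
          exact_mod_cast h1
      _ = (C.size + 1) * 2 ^ (4 * (W + L) + 14) * Q := by push_cast; ring
      _ ≤ (C.size + 1) * 2 ^ (4 * (W + L) + 14) * 2 ^ (δ * n) := by gcongr

end Pool.Agent.T9h36.SQ
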