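import Pool.Agent.T9h36.SQ.Lower

/-!
# The lower bound for exact circuits with NOT gates
-/

set_option autoImplicit false

namespace Pool.Agent.T9h36.SQ

open Pool.Agent.T9h34
open Pool.Agent.T9h36.SN (IsLevel levelProduct numArgs sources prob)

variable {ι : Type}

/-- The number of further gates among the first `j + 1` gates. -/
def cnt (C : Circuit ι) (j : ℕ) : ℕ := (C.gates.take (j + 1)).countP Gate.isOther

theorem cnt_mono (C : Circuit ι) {i j : ℕ} (h : i ≤ j) : cnt C i ≤ cnt C j := by
  unfold cnt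
  apply List.Sublist.countP_le
  exact (List.take_prefix_take_left (Nat.succ_le_succ h)).sublist

theorem cnt_le (C : Circuit ι) (j : ℕ) : cnt C j ≤ C.numOther := by
  unfold cnt Circuit.numOther
  exact List.Sublist.countP_le (List.take_sublist _ _)

theorem cnt_other (C : Circuit ι) {j : ℕ} {g : Gate ι} (hg : C.gates[j]? = some g)
    (h : g.isOther = true) :
    cnt C j = (C.gates.take j).countP Gate.isOther + 1 := by
  unfold cnt
  rw [List.take_add_one, hg, List.countP_append]
  simp [h]

theorem cnt_lt (C : Circuit ι) {i j : ℕ} (hij : i < j) {g : Gate ι} (hg : C.gates[j]? = some g)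
    (h : g.isOther = true) : cnt C i < cnt C j := by
  rw [cnt_other C hg h]
  have h1 : cnt C i ≤ (C.gates.take j).countP Gate.isOther := by
    unfold cnt
    apply List.Sublist.countP_le
    exact (List.take_prefix_take_left hij).sublist
  omega

theorem isLevel_cnt (C : Circuit ι) : IsLevel C (cnt C) := by
  intro j g hg i hi _
  exact ⟨cnt_mono C hi.le, fun h => cnt_lt C hi hg h⟩

theorem numArgs_le (C : Circuit ι) (hC : OnlyNots C) (j : ℕ) : numArgs C j ≤ 1 ∧
    (numArgs C j = 0 ∨ ∃ g, C.gates[j]? = some g ∧ g.isOther = true) := by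
  unfold numArgs
  cases hg : C.gates[j]? with
  | none => simp
  | some g =>
    simp only
    cases g with
    | and a b => simp [Gate.args]
    | or a b => simp [Gate.args]
    | other args φ =>
      obtain ⟨a, ha⟩ := hC _ (List.mem_of_getElem? hg) rfl
      rw [ha]
      refine ⟨le_rfl, Or.inr ⟨_, rfl, rfl⟩⟩

theorem levelProduct_cnt (C : Circuit ι) (hC : OnlyNots C) :
    levelProduct C (cnt C) ≤ 2 ^ C.numOther := by
  unfold levelProduct
  have h1 : ∀ l ∈ (Finset.range C.size).image (cnt C),
      (1 + ∑ j ∈ (Finset.range C.size).filter (fun j => cnt C j = l), numArgs C j) ≤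
        if l = 0 then 1 else 2 := by
    intro l _
    have h2 : ∑ j ∈ (Finset.range C.size).filter (fun j => cnt C j = l), numArgs C j ≤
        ((Finset.range C.size).filter (fun j => cnt C j = l ∧ numArgs C j ≠ 0)).card := by
      rw [Finset.card_eq_sum_ones, ← Finset.filter_filter, Finset.sum_filter (p := fun j => numArgs C j ≠ 0)]
      apply Finset.sum_le_sum
      intro j _
      have h3 := (numArgs_le C hC j).1
      split_ifs with h4
      · exact h3
      · push Not at h4
        omega
    have h3 : ((Finset.range C.size).filter (fun j => cnt C j = l ∧ numArgs C j ≠ 0)).card ≤ 1 := by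
      rw [Finset.card_le_one]
      intro i hi j hj
      rw [Finset.mem_filter] at hi hj
      obtain ⟨-, hi1, hi2⟩ := hi
      obtain ⟨-, hj1, hj2⟩ := hj
      obtain ⟨g, hg, hg2⟩ := ((numArgs_le C hC i).2).resolve_left hi2
      obtain ⟨g', hg', hg2'⟩ := ((numArgs_le C hC j).2).resolve_left hj2
      rcases lt_trichotomy i j with h | h | h
      · have := cnt_lt C h hg' hg2'
        omega
      · exact h
      · have := cnt_lt C h hg hg2
        omega
    split_ifs with hl
    · have h4 : ((Finset.range C.size).filter (fun j => cnt C j = l ∧ numArgs C j ≠ 0)).card = 0 := by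
        rw [Finset.card_eq_zero, Finset.filter_eq_empty_iff]
        rintro j _ ⟨hj1, hj2⟩
        obtain ⟨g, hg, hg2⟩ := ((numArgs_le C hC j).2).resolve_left hj2
        rw [cnt_other C hg hg2] at hj1
        omega
      omega
    · omega
  refine (Finset.prod_le_prod' h1).trans ?_
  have h2 : (Finset.range C.size).image (cnt C) ⊆ Finset.range (C.numOther + 1) := by
    intro l hl
    rw [Finset.mem_image] at hl
    obtain ⟨j, _, rfl⟩ := hl
    rw [Finset.mem_range]
    exact Nat.lt_succ_of_le (cnt_le C j)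
  calc ∏ l ∈ (Finset.range C.size).image (cnt C), (if l = 0 then 1 else 2)
      ≤ ∏ l ∈ Finset.range (C.numOther + 1), (if l = 0 then 1 else 2) := by
        apply Finset.prod_le_prod_of_subset_of_one_le' h2
        intro l _ _
        split_ifs <;> norm_num
    _ = 2 ^ C.numOther := by
        rw [Finset.prod_range_succ']
        simp

theorem sum_args_eq (gs : List (Gate ι))
    (hC : ∀ g ∈ gs, g.isOther = true → ∃ a, g = .other [a] (fun l => !(l.headD false))) :
    (gs.map fun g => g.args.length).sum = gs.countP Gate.isOther := by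
  induction gs with
  | nil => rfl
  | cons g gs ih =>
    rw [List.map_cons, List.sum_cons, List.countP_cons, ih (fun g' hg' => hC g' (by simp [hg']))]
    cases g with
    | and a b => simp [Gate.args, Gate.isOther]
    | or a b => simp [Gate.args, Gate.isOther]
    | other args φ =>
      obtain ⟨a, ha⟩ := hC _ (List.mem_cons_self) rfl
      rw [ha]
      simp [Gate.args, Gate.isOther]
      omega

theorem numReads_eq (C : Circuit ι) (hC : OnlyNots C) : C.numReads = C.numOther :=
  sum_args_eq C.gates hC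

theorem prob_of_forall {Ω : Type} [Fintype Ω] [Nonempty Ω] (p : Ω → Prop) (h : ∀ ω, p ω) :
    prob p = 1 := by
  unfold prob
  have h1 : {ω | p ω} = Set.univ := by
    ext ω
    simp [h ω]
  rw [h1, Set.ncard_univ, Nat.card_eq_fintype_card]
  have : (Fintype.card Ω : ℝ) ≠ 0 := by exact_mod_cast Fintype.card_ne_zero
  exact div_self this

theorem exact_lower (ε : ℝ) (hε : 0 < ε) : ∃ A : ℕ, 0 < A ∧ ∀ n W : ℕ, W ≤ n →
    ∀ C : Circuit (Fin (2 ^ W) × (Fin n × Bool)), OnlyNots C → DecidesSat C →
      C.numOther + A * (Nat.log 2 n + 1) ≤ W →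
      (2 : ℝ) ^ ((1 - ε) * n) ≤ (C.size + 1) * 2 ^ (C.numOther + 3) := by
  obtain ⟨A, hA, h⟩ := lower ε hε
  refine ⟨A + 1, Nat.succ_pos A, fun n W hW C hN hC ht => ?_⟩
  obtain ⟨t, ht0⟩ : ∃ t, t = C.numOther := ⟨_, rfl⟩
  rw [← ht0] at ht ⊢
  obtain ⟨Ω, i1, i2, φ₀, φ₁, h1, h2⟩ := h n W (t + 1) hW (by
    have : (A + 1) * (Nat.log 2 n + 1) = A * (Nat.log 2 n + 1) + (Nat.log 2 n + 1) := by ring
    omega)
  have h3 := h2 C (cnt C) (isLevel_cnt C)
  rw [prob_of_forall, prob_of_forall, numReads_eq C hN, ← ht0] at h3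
  · have h4 : (levelProduct C (cnt C) : ℝ) ≤ 2 ^ t := by
      rw [ht0]
      exact_mod_cast levelProduct_cnt C hN
    obtain ⟨X, hX⟩ : ∃ X : ℝ, X = 2 ^ ((1 - ε) * (n : ℝ)) := ⟨_, rfl⟩
    have hX0 : 0 < X := by
      rw [hX]
      positivity
    rw [← hX] at h3 ⊢
    have hts : (t : ℝ) ≤ C.size := by
      rw [ht0]
      unfold Circuit.numOther Circuit.size
      exact_mod_cast List.countP_le_length
    have h5 : ((levelProduct C (cnt C) : ℝ) - 1) / 2 ^ (t + 1) ≤ 1 / 2 := by
      rw [div_le_iff₀ (by positivity), pow_succ]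
      linarith
    have h6 : 1 / 2 ≤ ((C.size + t + 1 : ℕ) : ℝ) * 2 ^ (t + 1) / X := by linarith
    rw [le_div_iff₀ hX0] at h6
    push_cast at h6
    have h7 : ((C.size : ℝ) + t + 1) * 2 ^ (t + 1) ≤ (2 * (C.size + 1)) * 2 ^ (t + 1) := by
      gcongr
      linarith
    calc X ≤ 2 * ((2 * (C.size + 1)) * 2 ^ (t + 1)) := by linarith
      _ = (C.size + 1) * 2 ^ (t + 3) := by ring
  · intro p
    rw [hC]
    exact ⟨p.2, (h1 p).2.1⟩
  · intro p
    have h4 : ¬ C.eval (bits (φ₀ p)) = true := by
      rw [hC]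
      rintro ⟨α, hα⟩
      exact (h1 p).1 α hα
    simpa using h4

end Pool.Agent.T9h36.SQ
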