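import Pool.Agent.T9h36.SN.Main
import Pool.Agent.T9h36.SN.Levels

/-!
# The form for all circuits: the changes along random chains
-/

set_option autoImplicit false

namespace Pool.Agent.T9h36.SQ

open Finset Pool.Agent.T9h35.Sharp Pool.Agent.T9h35.NearBF Pool.Agent.T9h36.SN
open Pool.Agent.T9h34 (Circuit)
open Pool.Agent.T9h16 (Leaf)

section
variable {ι E K T Λ : Type} [Fintype ι] [DecidableEq ι] (Ng : K → Set E) (Pg : T → Set E)

open scoped Classical in
theorem path_all [Fintype K] [Nonempty K] [Fintype T] [Nonempty T] (N : ℕ) (δ : ℝ)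
    (hard : ∀ (D : Circuit Λ), (∀ g ∈ D.gates, g.IsMono) → D.size ≤ N →
      ∀ x : Set E → Λ → Bool, (∀ a, Leaf (fun z => x z a = true)) →
      ((univ.filter fun t : T => D.eval (x (Pg t)) = true).card : ℝ) / Fintype.card T +
      ((univ.filter fun k : K => D.eval (x (Ng k)) = false).card : ℝ) / Fintype.card K ≤ 1 + δ)
    (C : Circuit Λ) (hs : C.size + C.numReads + 1 ≤ N)
    (X : (ι → Set E) → Λ → Bool)
    (mono : ∀ y y', (∀ i, y i ⊆ y' i) → ∀ a, X y a = true → X y' a = true)
    (leaf : ∀ e, (∃ t : Bool, ∀ y, X y e = t) ∨ ∃ i b, ∀ y, X y e = true ↔ b ∈ y i) :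
    (∑ ω : ι → K, ∑ β : ι, ((if C.eval (X (pathY Ng ω ((Fintype.equivFin ι β).val + 1))) = false
        then (1 : ℝ) else 0) +
      (∑ t : T, if C.eval (X (Function.update (pathY Ng ω (Fintype.equivFin ι β).val) β (Pg t)))
        = true then (1 : ℝ) else 0) / Fintype.card T)) ≤
      Fintype.card (ι → K) * (Fintype.card ι * (1 + δ)) +
        ∑ ω : ι → K, ∑ β : ι, (if C.reads (X (pathY Ng ω (Fintype.equivFin ι β).val)) ≠
          C.reads (X (pathY Ng ω ((Fintype.equivFin ι β).val + 1))) then (1 : ℝ) else 0) := by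
  rw [sum_comm]
  refine (sum_le_sum fun β _ =>
    step_average Ng Pg N δ hard C hs X mono leaf β).trans (le_of_eq ?_)
  rw [sum_comm]
  have h1 : ∀ ω : ι → K, ∑ β : ι, (1 + δ +
      if C.reads (X (pathY Ng ω (Fintype.equivFin ι β).val)) ≠
        C.reads (X (pathY Ng ω ((Fintype.equivFin ι β).val + 1))) then (1 : ℝ) else 0) =
      Fintype.card ι * (1 + δ) + ∑ β : ι,
        (if C.reads (X (pathY Ng ω (Fintype.equivFin ι β).val)) ≠
        C.reads (X (pathY Ng ω ((Fintype.equivFin ι β).val + 1))) then (1 : ℝ) else 0) := by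
    intro ω
    rw [sum_add_distrib, sum_const, card_univ, nsmul_eq_mul]
  rw [sum_congr rfl fun ω _ => h1 ω, sum_add_distrib, sum_const, card_univ, nsmul_eq_mul]

end

theorem prob_fin {Ω : Type} [Fintype Ω] (g : ℕ) (P : Ω → ℕ → Prop) [∀ ω i, Decidable (P ω i)] :
    prob (fun p : Ω × Fin (2 ^ g) => P p.1 p.2.val) =
      (∑ ω : Ω, ∑ β : Fin g → Bool, if P ω (Fintype.equivFin (Fin g → Bool) β).val then (1 : ℝ)
        else 0) / (Fintype.card Ω * 2 ^ g) := by
  have hcard : Fintype.card (Fin g → Bool) = 2 ^ g := by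
    rw [Fintype.card_fun, Fintype.card_bool, Fintype.card_fin]
  rw [prob_eq, Fintype.sum_prod_type, Fintype.card_prod, Fintype.card_fin]
  push_cast
  congr 1
  apply sum_congr rfl
  intro ω _
  refine (Fintype.sum_equiv ((Fintype.equivFin (Fin g → Bool)).trans (finCongr hcard)) _ _ ?_).symm
  intro β
  simp

variable {n g b r₀ : ℕ}

/-- The chain of unsatisfiable formulas. -/
noncomputable def GG {m : ℕ} (S : Cut n g (m + 1) b r₀) (ω : Om g m b) (i : ℕ) :
    Finset (Clause n) :=
  S.formula (pathY negG ω i)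

theorem core_all {m : ℕ} (S : Cut n g (m + 1) b r₀) (hn : g + (m + 1) * b + r₀ = n)
    (hb : 1 ≤ b) (hm : 2 ≤ m) (r : ℕ) (hr : 1 ≤ r)
    (hκ : 2 * (m + 1) * (2 * m * (2 * m * (m * r))) ≤ 2 ^ b) (C : Circuit (Clause n)) :
    prob (fun p : Om g m b × Fin (2 ^ g) => C.eval (indicator (GG S p.1 (p.2.val + 1))) = true) +
      prob (fun p => C.eval (indicator (F1 S p)) = false) ≤ 1 +
      prob (fun p : Om g m b × Fin (2 ^ g) => C.reads (indicator (GG S p.1 p.2.val)) ≠
        C.reads (indicator (GG S p.1 (p.2.val + 1)))) +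
        ((((C.size + C.numReads + 1) * (2 ^ (m + 1) * (2 * m * (m * r)) ^ m) ^ 2 : ℕ) : ℝ) /
          ((2 ^ b : ℕ) : ℝ) ^ (m + 1) +
        (((3 * (C.size + C.numReads + 1) + 1) * NS (Vx (m + 1) (2 ^ b)) m : ℕ) : ℝ) / 2 ^ r) := by
  classical
  obtain ⟨N, hN⟩ : ∃ N, N = C.size + C.numReads + 1 := ⟨_, rfl⟩
  rw [← hN]
  obtain ⟨δ, hδ⟩ : ∃ δ : ℝ, δ = ((N * (2 ^ (m + 1) * (2 * m * (m * r)) ^ m) ^ 2 : ℕ) : ℝ) /
          ((2 ^ b : ℕ) : ℝ) ^ (m + 1) +
        (((3 * N + 1) * NS (Vx (m + 1) (2 ^ b)) m : ℕ) : ℝ) / 2 ^ r := ⟨_, rfl⟩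
  rw [← hδ]
  obtain ⟨X, hX⟩ : ∃ X : ((Fin g → Bool) → Set (EE (m + 1) (2 ^ b))) → Clause n → Bool,
      X = fun y c => !(indicator (S.formula y) c) := ⟨_, rfl⟩
  have heval : ∀ y, (dual C).eval (X y) = !(C.eval (indicator (S.formula y))) := by
    intro y
    rw [hX]
    exact eval_dual C _
  have hmono : ∀ y y' : (Fin g → Bool) → Set (EE (m + 1) (2 ^ b)), (∀ i, y i ⊆ y' i) →
      ∀ a, X y a = true → X y' a = true := by
    intro y y' hyy a ha
    rw [hX] at ha ⊢
    simp only [indicator, Bool.not_eq_true', decide_eq_false_iff_not] at ha ⊢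
    exact fun h => ha (S.formula_anti hyy h)
  have : Nonempty (Fin m) := ⟨⟨0, by omega⟩⟩
  have hω₀ := path_all (ι := Fin g → Bool) (E := EE (m + 1) (2 ^ b))
    (K := Vx (m + 1) (2 ^ b) → Fin m) (T := Fin (m + 1) → Fin (2 ^ b)) (Λ := Clause n)
    negG posG N δ (by
      intro D hD hDs x hleaf
      have := mono_advantage r N hm hr Nat.one_le_two_pow hκ D hD hDs x hleaf
      have e1 : (Fintype.card (Fin (m + 1) → Fin (2 ^ b)) : ℝ) = ((2 ^ b : ℕ) : ℝ) ^ (m + 1) := by
        rw [Fintype.card_fun, Fintype.card_fin, Fintype.card_fin]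
        push_cast
        rfl
      have e2 : (Fintype.card (Vx (m + 1) (2 ^ b) → Fin m) : ℝ) =
          (m : ℝ) ^ Fintype.card (Vx (m + 1) (2 ^ b)) := by
        rw [Fintype.card_fun, Fintype.card_fin]
        push_cast
        rfl
      rw [e1, e2, hδ]
      linarith) (dual C) (by rw [size_dual, numReads_dual, ← hN]) X hmono (by
      intro c
      rw [hX]
      exact S.leaf hb c)
  obtain ⟨G, hG⟩ : ∃ G : ℝ, G = Fintype.card (Om g m b) := ⟨_, rfl⟩
  have hGpos : 0 < G := by
    rw [hG]
    exact_mod_cast Fintype.card_pos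
  obtain ⟨w, hw⟩ : ∃ w : ℝ, w = Fintype.card (Fin (m + 1) → Fin (2 ^ b)) := ⟨_, rfl⟩
  have hwpos : 0 < w := by
    rw [hw]
    exact_mod_cast Fintype.card_pos
  have hcn : (Fintype.card (Om g m b × (Fin n → Bool)) : ℝ) = G * (2 ^ g * w * 2 ^ r₀) := by
    rw [Fintype.card_prod, Nat.cast_mul, ← hG, hw]
    congr 1
    rw [Fintype.card_fun, Fintype.card_fun, Fintype.card_bool, Fintype.card_fin,
      Fintype.card_fin, Fintype.card_fin]
    push_cast
    rw [← hn, pow_add, pow_add, mul_comm (m + 1) b, pow_mul]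
  have hg2 : (Fintype.card (Fin g → Bool) : ℝ) = 2 ^ g := by
    rw [Fintype.card_fun, Fintype.card_bool, Fintype.card_fin]
    push_cast
    rfl
  have hA := prob_fin (Ω := Om g m b) g
    (fun ω i => C.eval (indicator (GG S ω (i + 1))) = true)
  have hA2 : ∀ ω : Om g m b, ∀ β : Fin g → Bool,
      (if C.eval (indicator (GG S ω ((Fintype.equivFin (Fin g → Bool) β).val + 1))) = true
        then (1 : ℝ) else 0) =
      (if (dual C).eval (X (pathY negG ω ((Fintype.equivFin (Fin g → Bool) β).val + 1))) = false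
        then (1 : ℝ) else 0) := by
    intro ω β
    rw [heval, GG]
    simp
  have hD := prob_fin (Ω := Om g m b) g
    (fun ω i => C.reads (indicator (GG S ω i)) ≠ C.reads (indicator (GG S ω (i + 1))))
  have hD2 : ∀ ω : Om g m b, ∀ β : Fin g → Bool,
      (if (dual C).reads (X (pathY negG ω (Fintype.equivFin (Fin g → Bool) β).val)) ≠
        (dual C).reads (X (pathY negG ω ((Fintype.equivFin (Fin g → Bool) β).val + 1)))
          then (1 : ℝ) else 0) ≤
      (if C.reads (indicator (GG S ω (Fintype.equivFin (Fin g → Bool) β).val)) ≠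
        C.reads (indicator (GG S ω ((Fintype.equivFin (Fin g → Bool) β).val + 1)))
          then (1 : ℝ) else 0) := by
    intro ω β
    by_cases h : (dual C).reads (X (pathY negG ω (Fintype.equivFin (Fin g → Bool) β).val)) ≠
        (dual C).reads (X (pathY negG ω ((Fintype.equivFin (Fin g → Bool) β).val + 1)))
    · rw [if_pos h, if_pos]
      apply reads_ne_dual
      rw [hX] at h
      exact h
    · rw [if_neg h]
      split_ifs <;> norm_num
  have hB : prob (fun p => C.eval (indicator (F1 S p)) = false) =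
      (∑ ω : Om g m b, ∑ β : Fin g → Bool, (∑ t : Fin (m + 1) → Fin (2 ^ b),
        if (dual C).eval (X (Function.update (pathY negG ω (Fintype.equivFin _ β).val) β
          (posG t))) = true then (1 : ℝ) else 0) / w) / (G * 2 ^ g) := by
    rw [prob_eq, hcn, Fintype.sum_prod_type]
    have h1 : ∀ ω : Om g m b, ∑ α : Fin n → Bool,
        (if C.eval (indicator (F1 S (ω, α))) = false then (1 : ℝ) else 0) =
        2 ^ r₀ * (w * ∑ β : Fin g → Bool, (∑ t : Fin (m + 1) → Fin (2 ^ b),
          if (dual C).eval (X (Function.update (pathY negG ω (Fintype.equivFin _ β).val) β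
          (posG t))) = true then (1 : ℝ) else 0) / w) := by
      intro ω
      have h2 := S.sum_cut (fun β t => if (dual C).eval
        (X (Function.update (pathY negG ω (Fintype.equivFin _ β).val) β (posG t))) = true
          then (1 : ℝ) else 0)
      have h3 : ∀ α : Fin n → Bool,
          (if C.eval (indicator (F1 S (ω, α))) = false then (1 : ℝ) else 0) =
          (if (dual C).eval (X (Function.update (pathY negG ω
            (Fintype.equivFin _ (S.blk α)).val) (S.blk α) (posG (S.trv α)))) = true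
            then (1 : ℝ) else 0) := by
        intro α
        rw [heval, F1]
        simp
      rw [sum_congr rfl fun α _ => h3 α, h2]
      congr 1
      rw [mul_sum]
      apply sum_congr rfl
      intro β _
      field_simp
    rw [sum_congr rfl fun ω _ => h1 ω, ← mul_sum, ← mul_sum]
    field_simp
  rw [hA, hB, hD, ← hG]
  have h6 : (∑ ω : Om g m b, ∑ β : Fin g → Bool,
      (if C.eval (indicator (GG S ω ((Fintype.equivFin (Fin g → Bool) β).val + 1))) = true
        then (1 : ℝ) else 0)) +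
      (∑ ω : Om g m b, ∑ β : Fin g → Bool, (∑ t : Fin (m + 1) → Fin (2 ^ b),
          if (dual C).eval (X (Function.update (pathY negG ω (Fintype.equivFin _ β).val) β
            (posG t))) = true then (1 : ℝ) else 0) / w) ≤
      G * (2 ^ g * (1 + δ)) + ∑ ω : Om g m b, ∑ β : Fin g → Bool,
      (if C.reads (indicator (GG S ω (Fintype.equivFin (Fin g → Bool) β).val)) ≠
        C.reads (indicator (GG S ω ((Fintype.equivFin (Fin g → Bool) β).val + 1)))
          then (1 : ℝ) else 0) := by
    rw [← sum_add_distrib]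
    calc ∑ ω : Om g m b, ((∑ β : Fin g → Bool,
      (if C.eval (indicator (GG S ω ((Fintype.equivFin (Fin g → Bool) β).val + 1))) = true
        then (1 : ℝ) else 0)) +
      (∑ β : Fin g → Bool, (∑ t : Fin (m + 1) → Fin (2 ^ b),
          if (dual C).eval (X (Function.update (pathY negG ω (Fintype.equivFin _ β).val) β
            (posG t))) = true then (1 : ℝ) else 0) / w))
        = ∑ ω : Om g m b, ∑ β : Fin g → Bool,
          ((if (dual C).eval (X (pathY negG ω ((Fintype.equivFin (Fin g → Bool) β).val + 1)))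
            = false then (1 : ℝ) else 0) +
          (∑ t : Fin (m + 1) → Fin (2 ^ b),
          if (dual C).eval (X (Function.update (pathY negG ω (Fintype.equivFin _ β).val) β
            (posG t))) = true then (1 : ℝ) else 0) / w) := by
          apply sum_congr rfl
          intro ω _
          rw [← sum_add_distrib]
          apply sum_congr rfl
          intro β _
          rw [hA2]
      _ ≤ _ := by
          rw [hw]
          refine hω₀.trans ?_
          rw [hG, ← hg2]
          apply add_le_add le_rfl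
          apply sum_le_sum
          intro ω _
          apply sum_le_sum
          intro β _
          exact hD2 ω β
  obtain ⟨a, ha⟩ : ∃ a : ℝ, a = ∑ ω : Om g m b, ∑ β : Fin g → Bool,
      (if C.eval (indicator (GG S ω ((Fintype.equivFin (Fin g → Bool) β).val + 1))) = true
        then (1 : ℝ) else 0) := ⟨_, rfl⟩
  obtain ⟨a', ha'⟩ : ∃ a' : ℝ, a' = (∑ ω : Om g m b, ∑ β : Fin g → Bool,
      (∑ t : Fin (m + 1) → Fin (2 ^ b),
          if (dual C).eval (X (Function.update (pathY negG ω (Fintype.equivFin _ β).val) β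
            (posG t))) = true then (1 : ℝ) else 0) / w) := ⟨_, rfl⟩
  obtain ⟨d, hd⟩ : ∃ d : ℝ, d = ∑ ω : Om g m b, ∑ β : Fin g → Bool,
      (if C.reads (indicator (GG S ω (Fintype.equivFin (Fin g → Bool) β).val)) ≠
        C.reads (indicator (GG S ω ((Fintype.equivFin (Fin g → Bool) β).val + 1)))
          then (1 : ℝ) else 0) := ⟨_, rfl⟩
  rw [← ha, ← ha', ← hd] at h6
  rw [← ha, ← ha', ← hd, ← add_div]
  have h7 : 0 < G * 2 ^ g := by positivity
  rw [div_le_iff₀ h7]
  have h8 : (1 + d / (G * 2 ^ g) + δ) * (G * 2 ^ g) = G * (2 ^ g * (1 + δ)) + d := by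
    field_simp
    ring
  rw [h8]
  exact h6

end Pool.Agent.T9h36.SQ
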