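import Pool.Agent.T9h36.SN.Defs

/-!
# CNF-SAT as a Boolean function
-/

set_option autoImplicit false

namespace Pool.Agent.T9h36.SQ

open Pool.Agent.T9h34

/-- A CNF formula with `M` clauses over `n` variables: every clause is a set of literals, and the
literal `(x, s)` is true if the variable `x` has the value `s`. -/
abbrev Formula (n M : ℕ) : Type := Fin M → Finset (Fin n × Bool)

/-- The assignment `α` satisfies the formula `φ`. -/
def Satisfies {n M : ℕ} (α : Fin n → Bool) (φ : Formula n M) : Prop :=
  ∀ j, ∃ l ∈ φ j, α l.1 = l.2

/-- The formula `φ` is unsatisfiable. -/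
def Unsat {n M : ℕ} (φ : Formula n M) : Prop := ∀ α : Fin n → Bool, ¬ Satisfies α φ

/-- The input which describes the formula `φ`: for every clause and every literal whether the
literal occurs in the clause. -/
def bits {n M : ℕ} (φ : Formula n M) : Fin M × (Fin n × Bool) → Bool :=
  fun p => decide (p.2 ∈ φ p.1)

/-- The circuit decides which formulas with `M` clauses over `n` variables are satisfiable. -/
def DecidesSat {n M : ℕ} (C : Circuit (Fin M × (Fin n × Bool))) : Prop :=
  ∀ φ : Formula n M, C.eval (bits φ) = true ↔ ∃ α, Satisfies α φ

/-- All gates other than AND gates and OR gates are NOT gates. -/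
def OnlyNots {ι : Type} (C : Circuit ι) : Prop :=
  ∀ g ∈ C.gates, g.isOther = true → ∃ a, g = .other [a] (fun l => !(l.headD false))

end Pool.Agent.T9h36.SQ
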