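import Pool.Agent.T9h36.SQ.Exact
import Pool.Agent.T9h36.SQ.Upper

/-!
# The final form
-/

set_option autoImplicit false

namespace Pool.Agent.T9h36.SQ

open Pool.Agent.T9h34 (Circuit)
open Pool.Agent.T9h36.SN (IsLevel levelProduct prob)

theorem final :
    (∀ ε : ℝ, 0 < ε → ∃ A : ℕ, 0 < A ∧
      (∀ n W : ℕ, W ≤ n → ∀ C : Circuit (Fin (2 ^ W) × (Fin n × Bool)),
        OnlyNots C → DecidesSat C → C.numOther + A * (Nat.log 2 n + 1) ≤ W →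
        (2 : ℝ) ^ ((1 - ε) * n) ≤ (C.size + 1) * 2 ^ (C.numOther + 3)) ∧
      ∀ n W g : ℕ, W ≤ n → g + A * (Nat.log 2 n + 1) ≤ W →
        ∃ (Ω : Type) (_ : Fintype Ω) (_ : Nonempty Ω)
          (φ₀ φ₁ : Ω × (Fin n → Bool) → Formula n (2 ^ W)),
          (∀ p, Unsat (φ₀ p) ∧ Satisfies p.2 (φ₁ p) ∧
            ∀ j, (φ₀ p j).card ≤ W + 2 ∧ (φ₁ p j).card ≤ W + 2) ∧
          ∀ (C : Circuit (Fin (2 ^ W) × (Fin n × Bool))) (lev : ℕ → ℕ), IsLevel C lev →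
            prob (fun p => C.eval (bits (φ₀ p)) = false) +
              prob (fun p => C.eval (bits (φ₁ p)) = true) ≤
            1 + ((levelProduct C lev : ℝ) - 1) / 2 ^ g +
              (C.size + C.numReads + 1 : ℕ) * 2 ^ g / 2 ^ ((1 - ε) * n)) ∧
    (∀ δ : ℝ, 0 < δ → ∃ B : ℕ, ∀ (n W : ℕ) (C : Circuit (Fin (2 ^ W) × (Fin n × Bool))),
      OnlyNots C → DecidesSat C →
      ∃ C' : Circuit (Fin (2 ^ W) × (Fin n × Bool)), OnlyNots C' ∧ DecidesSat C' ∧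
        C'.numOther ≤ W + Nat.log 2 (W + Nat.log 2 n + 3) + B ∧
        (C'.size : ℝ) ≤ (C.size + 1) * 2 ^ (4 * (W + Nat.log 2 n) + 14) * 2 ^ (δ * n)) := by
  refine ⟨fun ε hε => ?_, upper⟩
  obtain ⟨A₁, hA₁, h₁⟩ := exact_lower ε hε
  obtain ⟨A₂, hA₂, h₂⟩ := lower ε hε
  refine ⟨max A₁ A₂, lt_max_of_lt_left hA₁, ?_, ?_⟩
  · intro n W hW C hN hC ht
    apply h₁ n W hW C hN hC
    refine le_trans (Nat.add_le_add_left (Nat.mul_le_mul_right _ (le_max_left A₁ A₂)) _) ht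
  · intro n W g hW hg
    apply h₂ n W g hW
    refine le_trans (Nat.add_le_add_left (Nat.mul_le_mul_right _ (le_max_right A₁ A₂)) _) hg

end Pool.Agent.T9h36.SQ
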