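import Pool.Agent.T9h36.SQ.Defs
import Pool.Agent.T9h36.SN.Final

/-!
# The lower bound for CNF-SAT
-/

set_option autoImplicit false

namespace Pool.Agent.T9h36.SQ

open Pool.Agent.T9h34
open Pool.Agent.T9h36.SN (dual dualSrc dualGate IsLevel levelProduct numArgs sources indicator prob)

section levels

variable {ι κ : Type}

theorem mem_sources_subst (σ : ι → κ ⊕ Bool) (g : Gate ι) (i : ℕ) :
    Src.gate i ∈ sources (g.subst σ) ↔ Src.gate i ∈ sources g := by
  have key : ∀ a : Src ι, a.subst σ = Src.gate i ↔ a = Src.gate i := by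
    intro a
    cases a with
    | input j =>
      simp only [Src.subst]
      cases σ j <;> simp
    | const b => simp [Src.subst]
    | gate j => simp [Src.subst]
  cases g with
  | and a b =>
    simp only [Gate.subst, sources, List.mem_cons, List.not_mem_nil, or_false]
    rw [eq_comm, key, eq_comm (a := Src.gate i) (b := b.subst σ), key, eq_comm (a := a),
      eq_comm (a := b)]
  | or a b =>
    simp only [Gate.subst, sources, List.mem_cons, List.not_mem_nil, or_false]
    rw [eq_comm, key, eq_comm (a := Src.gate i) (b := b.subst σ), key, eq_comm (a := a),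
      eq_comm (a := b)]
  | other args φ =>
    simp only [Gate.subst, sources, List.mem_map]
    constructor
    · rintro ⟨a, ha, h⟩
      rw [key] at h
      rw [← h]
      exact ha
    · intro h
      exact ⟨_, h, rfl⟩

theorem mem_sources_dual (k : ℕ) (g : Gate ι) (i : ℕ) (hi : i < k) :
    Src.gate i ∈ sources (dualGate k g) ↔ Src.gate i ∈ sources g := by
  have key : ∀ a : Src ι, dualSrc k a = Src.gate i ↔ a = Src.gate i := by
    intro a
    cases a with
    | input j => simp [dualSrc]
    | const b => simp [dualSrc]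
    | gate j =>
      have h0 : dualSrc k (Src.gate j : Src ι) = if j < k then .gate j else .const true := rfl
      rw [h0]
      by_cases h : j < k
      · simp [h]
      · simp only [h, if_false]
        constructor
        · intro h1
          cases h1
        · intro h1
          cases h1
          omega
  cases g with
  | and a b =>
    simp only [dualGate, sources, List.mem_cons, List.not_mem_nil, or_false]
    rw [eq_comm, key, eq_comm (a := Src.gate i) (b := dualSrc k b), key, eq_comm (a := a),
      eq_comm (a := b)]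
  | or a b =>
    simp only [dualGate, sources, List.mem_cons, List.not_mem_nil, or_false]
    rw [eq_comm, key, eq_comm (a := Src.gate i) (b := dualSrc k b), key, eq_comm (a := a),
      eq_comm (a := b)]
  | other args φ =>
    simp only [dualGate, sources, List.mem_map]
    constructor
    · rintro ⟨a, ha, h⟩
      rw [key] at h
      rw [← h]
      exact ha
    · intro h
      exact ⟨_, h, (key _).2 rfl⟩

theorem isOther_dualGate (k : ℕ) (g : Gate ι) : (dualGate k g).isOther = g.isOther := by
  cases g <;> rfl

/-- The circuit with negated values. -/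
def tr (σ : ι → κ ⊕ Bool) (C : Circuit ι) : Circuit κ := (dual C).subst σ

theorem gates_tr (σ : ι → κ ⊕ Bool) (C : Circuit ι) (j : ℕ) :
    (tr σ C).gates[j]? = (C.gates[j]?).map (fun g => (dualGate j g).subst σ) := by
  unfold tr dual Circuit.subst
  simp only
  rw [List.getElem?_map, List.getElem?_mapIdx, Option.map_map]
  rfl

theorem size_tr (σ : ι → κ ⊕ Bool) (C : Circuit ι) : (tr σ C).size = C.size := by
  unfold tr
  rw [Circuit.size_subst, Pool.Agent.T9h36.SN.size_dual]

theorem args_subst (σ : ι → κ ⊕ Bool) (g : Gate ι) :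
    (g.subst σ).args = g.args.map (Src.subst σ) := by
  cases g <;> rfl

theorem numReads_tr (σ : ι → κ ⊕ Bool) (C : Circuit ι) : (tr σ C).numReads = C.numReads := by
  unfold tr
  rw [← Pool.Agent.T9h36.SN.numReads_dual C]
  unfold Circuit.subst Circuit.numReads
  simp only [List.map_map]
  congr 1
  apply List.map_congr_left
  intro g _
  simp [args_subst]

theorem numArgs_tr (σ : ι → κ ⊕ Bool) (C : Circuit ι) (j : ℕ) :
    numArgs (tr σ C) j = numArgs C j := by
  unfold numArgs
  rw [gates_tr]
  cases C.gates[j]? with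
  | none => rfl
  | some g =>
    simp only [Option.map_some]
    rw [args_subst, Pool.Agent.T9h36.SN.args_dualGate]
    simp

theorem isLevel_tr (σ : ι → κ ⊕ Bool) (C : Circuit ι) (lev : ℕ → ℕ) (h : IsLevel C lev) :
    IsLevel (tr σ C) lev := by
  intro j g' hg' i hi hmem
  rw [gates_tr] at hg'
  cases hg : C.gates[j]? with
  | none =>
    rw [hg] at hg'
    simp at hg'
  | some g =>
    rw [hg] at hg'
    simp only [Option.map_some, Option.some.injEq] at hg'
    subst hg'
    rw [mem_sources_subst, mem_sources_dual j g i hi] at hmem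
    rw [Gate.isOther_subst, isOther_dualGate]
    exact h j g hg i hi hmem

theorem levelProduct_tr (σ : ι → κ ⊕ Bool) (C : Circuit ι) (lev : ℕ → ℕ) :
    levelProduct (tr σ C) lev = levelProduct C lev := by
  unfold levelProduct
  rw [size_tr]
  apply Finset.prod_congr rfl
  intro l _
  congr 1
  apply Finset.sum_congr rfl
  intro j _
  exact numArgs_tr σ C j

theorem eval_tr (σ : ι → κ ⊕ Bool) (C : Circuit ι) (y : κ → Bool) (x : ι → Bool)
    (h : ∀ i, pull σ y i = !x i) : (tr σ C).eval y = !(C.eval x) := by
  unfold tr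
  rw [Circuit.eval_subst]
  have h1 : pull σ y = fun i => !x i := funext h
  rw [h1, Pool.Agent.T9h36.SN.eval_dual]

end levels

section encode

variable {n M : ℕ}

/-- The two literals of the first variable. -/
def taut (n : ℕ) (hn : 0 < n) : Finset (Fin n × Bool) := {(⟨0, hn⟩, true), (⟨0, hn⟩, false)}

/-- The formula with the clauses `c j`, where the clauses not in `F` are made trivial. -/
def form (hn : 0 < n) (c : Fin M → Option (SN.Clause n)) (F : Finset (SN.Clause n)) :
    Formula n M := fun j =>
  match c j with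
  | some C => if C ∈ F then C else C ∪ taut n hn
  | none => taut n hn

/-- The substitution. -/
def sub (hn : 0 < n) (c : Fin M → Option (SN.Clause n)) :
    Fin M × (Fin n × Bool) → (SN.Clause n) ⊕ Bool := fun p =>
  match c p.1 with
  | some C => if p.2 ∈ C then .inr false else if p.2 ∈ taut n hn then .inl C else .inr true
  | none => .inr (!(decide (p.2 ∈ taut n hn)))

theorem pull_sub (hn : 0 < n) (c : Fin M → Option (SN.Clause n)) (F : Finset (SN.Clause n))
    (p : Fin M × (Fin n × Bool)) :
    pull (sub hn c) (indicator F) p = !(bits (form hn c F) p) := by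
  obtain ⟨j, l⟩ := p
  unfold pull sub bits form
  simp only
  cases c j with
  | none => simp
  | some C =>
    simp only
    by_cases h1 : l ∈ C
    · by_cases h2 : C ∈ F
      · simp [h1, h2]
      · simp [h1, h2]
    · by_cases h3 : l ∈ taut n hn
      · by_cases h2 : C ∈ F
        · simp [h1, h2, h3, indicator]
        · simp [h1, h2, h3, indicator]
      · by_cases h2 : C ∈ F
        · simp [h1, h2, h3]
        · simp [h1, h2, h3]

theorem taut_sat (hn : 0 < n) (α : Fin n → Bool) : ∃ l ∈ taut n hn, α l.1 = l.2 := by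
  refine ⟨(⟨0, hn⟩, α ⟨0, hn⟩), ?_, rfl⟩
  unfold taut
  cases α ⟨0, hn⟩ <;> simp

theorem satisfies_form (hn : 0 < n) (c : Fin M → Option (SN.Clause n))
    (F : Finset (SN.Clause n)) (α : Fin n → Bool) (h : SN.Satisfies α F) :
    Satisfies α (form hn c F) := by
  intro j
  unfold form
  cases c j with
  | none => exact taut_sat hn α
  | some C =>
    simp only
    by_cases h2 : C ∈ F
    · rw [if_pos h2]
      exact h C h2
    · rw [if_neg h2]
      obtain ⟨l, hl, h3⟩ := taut_sat hn α
      exact ⟨l, Finset.mem_union_right _ hl, h3⟩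

theorem unsat_form (hn : 0 < n) (c : Fin M → Option (SN.Clause n))
    (F : Finset (SN.Clause n)) (hF : ∀ C ∈ F, ∃ j, c j = some C) (h : SN.Unsat F) :
    Unsat (form hn c F) := by
  intro α hα
  apply h α
  intro C hC
  obtain ⟨j, hj⟩ := hF C hC
  have h1 := hα j
  unfold form at h1
  rw [hj] at h1
  simp only [hC, if_true] at h1
  exact h1

theorem card_form (hn : 0 < n) (c : Fin M → Option (SN.Clause n)) (W : ℕ)
    (hc : ∀ j C, c j = some C → C.card ≤ W) (F : Finset (SN.Clause n)) (j : Fin M) :
    (form hn c F j).card ≤ W + 2 := by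
  have ht : (taut n hn).card ≤ 2 := Finset.card_le_two
  unfold form
  cases h : c j with
  | none =>
    simp only
    omega
  | some C =>
    simp only
    have h1 := hc j C h
    split_ifs
    · omega
    · have h2 := Finset.card_union_le C (taut n hn)
      omega

end encode

theorem lower (ε : ℝ) (hε : 0 < ε) : ∃ A : ℕ, 0 < A ∧ ∀ n W g : ℕ, W ≤ n →
    g + A * (Nat.log 2 n + 1) ≤ W →
    ∃ (Ω : Type) (_ : Fintype Ω) (_ : Nonempty Ω) (φ₀ φ₁ : Ω × (Fin n → Bool) → Formula n (2 ^ W)),
      (∀ p, Unsat (φ₀ p) ∧ Satisfies p.2 (φ₁ p) ∧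
        ∀ j, (φ₀ p j).card ≤ W + 2 ∧ (φ₁ p j).card ≤ W + 2) ∧
      ∀ (C : Circuit (Fin (2 ^ W) × (Fin n × Bool))) (lev : ℕ → ℕ), IsLevel C lev →
        prob (fun p => C.eval (bits (φ₀ p)) = false) + prob (fun p => C.eval (bits (φ₁ p)) = true)
          ≤ 1 + ((levelProduct C lev : ℝ) - 1) / 2 ^ g +
            (C.size + C.numReads + 1 : ℕ) * 2 ^ g / 2 ^ ((1 - ε) * n) := by
  obtain ⟨A, hA, h⟩ := Pool.Agent.T9h36.SN.final ε hε
  refine ⟨A, hA, fun n W g hW hg => ?_⟩
  have hn : 0 < n := by
    have : 0 < A * (Nat.log 2 n + 1) := Nat.mul_pos hA (Nat.succ_pos _)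
    omega
  obtain ⟨𝒞, h1, h2, h3⟩ := h n W hW
  obtain ⟨Ω, i1, i2, F₀, F₁, g1, g2, g3⟩ := h3 g hg
  set c : Fin (2 ^ W) → Option (SN.Clause n) := fun j => 𝒞.toList[j.val]? with hc
  have hc1 : ∀ C ∈ 𝒞, ∃ j, c j = some C := by
    intro C hC
    have h4 : C ∈ 𝒞.toList := Finset.mem_toList.2 hC
    obtain ⟨i, hi, h5⟩ := List.getElem_of_mem h4
    rw [Finset.length_toList] at hi
    refine ⟨⟨i, by omega⟩, ?_⟩
    simp only [hc]
    rw [List.getElem?_eq_getElem (by rw [Finset.length_toList]; exact hi), h5]
  have hc2 : ∀ j C, c j = some C → C.card ≤ W := by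
    intro j C h4
    simp only [hc] at h4
    have h5 := List.mem_of_getElem? h4
    exact h2 C (Finset.mem_toList.1 h5)
  refine ⟨Ω, i1, i2, fun p => form hn c (F₀ p), fun p => form hn c (F₁ p), ?_, ?_⟩
  · intro p
    refine ⟨unsat_form hn c _ (fun C hC => hc1 C ((g1 p).1 hC)) (g1 p).2,
      satisfies_form hn c _ _ (g2 p).2, fun j => ⟨card_form hn c W hc2 _ j,
        card_form hn c W hc2 _ j⟩⟩
  · intro C lev hlev
    obtain ⟨m, F, -, -, k3, k4⟩ := g3 (tr (sub hn c) C)
    have h5 := k3 lev (isLevel_tr _ C lev hlev)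
    rw [levelProduct_tr] at h5
    rw [size_tr, numReads_tr] at k4
    have h6 : ∀ F : Finset (SN.Clause n), (tr (sub hn c) C).eval (indicator F) =
        !(C.eval (bits (form hn c F))) := by
      intro F
      exact eval_tr _ C _ _ (pull_sub hn c F)
    have h7 : (fun p => (tr (sub hn c) C).eval (indicator (F₀ p)) = true) =
        fun p => C.eval (bits (form hn c (F₀ p))) = false := by
      funext p
      rw [h6]
      simp
    have h8 : (fun p => (tr (sub hn c) C).eval (indicator (F₁ p)) = false) =
        fun p => C.eval (bits (form hn c (F₁ p))) = true := by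
      funext p
      rw [h6]
      simp
    rw [h7, h8] at k4
    refine k4.trans ?_
    have h9 : (m : ℝ) ≤ (levelProduct C lev : ℝ) - 1 := by
      have : ((m + 1 : ℕ) : ℝ) ≤ levelProduct C lev := by exact_mod_cast h5
      push_cast at this
      linarith
    gcongr

end Pool.Agent.T9h36.SQ
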