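import Pool.Agent.T9h36.SQ.MainAll
import Pool.Agent.T9h36.SQ.Exact

/-!
# The lower bound for CNF-SAT, for all circuits
-/

set_option autoImplicit false

namespace Pool.Agent.T9h36.SQ

open Pool.Agent.T9h34
open Pool.Agent.T9h36.SN (dual dualSrc dualGate IsLevel levelProduct numArgs sources indicator prob)

section reads

variable {ι κ : Type}

theorem readsAt_subst (σ : ι → κ ⊕ Bool) (D : Circuit ι) (y : κ → Bool) (j : ℕ) :
    (D.subst σ).readsAt y j = D.readsAt (pull σ y) j := by
  unfold Circuit.readsAt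
  have h1 : (D.subst σ).gates = D.gates.map (Gate.subst σ) := rfl
  rw [h1, List.getElem?_map]
  by_cases hj : j < D.gates.length
  · rw [List.getElem?_eq_getElem hj]
    simp only [Option.map_some]
    rw [args_subst, ← List.map_take, runGates_subst, List.map_map]
    apply List.map_congr_left
    intro a _
    exact Src.eval_subst σ y _ a
  · rw [List.getElem?_eq_none (by omega)]
    rfl

theorem reads_subst (σ : ι → κ ⊕ Bool) (D : Circuit ι) (y : κ → Bool) :
    (D.subst σ).reads y = D.reads (pull σ y) := by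
  unfold Circuit.reads
  have h1 : (D.subst σ).gates.length = D.gates.length := by simp [Circuit.subst]
  rw [h1]
  apply List.map_congr_left
  intro j _
  exact readsAt_subst σ D y j

theorem reads_tr (σ : ι → κ ⊕ Bool) (C : Circuit ι) (y : κ → Bool) (x : ι → Bool)
    (h : ∀ i, pull σ y i = !x i) : (tr σ C).reads y = (C.reads x).map (List.map not) := by
  unfold tr
  rw [reads_subst]
  have h1 : pull σ y = fun i => !x i := funext h
  rw [h1, Pool.Agent.T9h36.SN.reads_dual]

end reads

theorem form_mono {n M : ℕ} (hn : 0 < n) (c : Fin M → Option (SN.Clause n))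
    {F F' : Finset (SN.Clause n)} (h : F' ⊆ F) (j : Fin M) : form hn c F j ⊆ form hn c F' j := by
  unfold form
  cases c j with
  | none => exact subset_rfl
  | some C =>
    simp only
    by_cases h1 : C ∈ F'
    · rw [if_pos h1, if_pos (h h1)]
    · rw [if_neg h1]
      split_ifs
      · exact Finset.subset_union_left
      · exact subset_rfl

open scoped Classical in
/-- The probability of a change along a chain. -/
theorem prob_changes {ι Ω : Type} [Fintype Ω] [Nonempty Ω] (g : ℕ) (C : Circuit ι)
    (x : Ω → ℕ → ι → Bool) (hx : ∀ ω i e, x ω i e = true → x ω (i + 1) e = true) (lev : ℕ → ℕ)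
    (hlev : IsLevel C lev) :
    prob (fun p : Ω × Fin (2 ^ g) => C.reads (x p.1 p.2.val) ≠ C.reads (x p.1 (p.2.val + 1))) ≤
      ((levelProduct C lev : ℝ) - 1) / 2 ^ g := by
  have hmono : ∀ ω, ∀ i j, i ≤ j → ∀ e, x ω i e = true → x ω j e = true := by
    intro ω i j hij e he
    induction j, hij using Nat.le_induction with
    | base => exact he
    | succ j _ ih => exact hx ω j e ih
  have h1 : ∀ ω, ((Finset.univ.filter fun i : Fin (2 ^ g) =>
      C.reads (x ω i.val) ≠ C.reads (x ω (i.val + 1))).card : ℝ) ≤ (levelProduct C lev : ℝ) - 1 := by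
    intro ω
    obtain ⟨φ, hφ, h2⟩ := Pool.Agent.T9h36.SN.exists_consecutive (fun i => x ω i)
      (fun z => C.reads z) (2 ^ g)
    have h3 := Pool.Agent.T9h36.SN.changes_le_level C lev hlev (fun i => x ω (φ i))
      (fun i e he => hmono ω _ _ (hφ (Nat.le_succ i)) e he) _ h2
    have h4 : (Finset.univ.filter fun i : Fin (2 ^ g) =>
        C.reads (x ω i.val) ≠ C.reads (x ω (i.val + 1))).card =
        ((Finset.range (2 ^ g)).filter fun J =>
          C.reads (x ω J) ≠ C.reads (x ω (J + 1))).card := by
      rw [Finset.card_filter, Finset.card_filter, Finset.sum_range]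
    rw [h4]
    have h5 : (((Finset.range (2 ^ g)).filter fun J =>
          C.reads (x ω J) ≠ C.reads (x ω (J + 1))).card : ℝ) + 1 ≤ levelProduct C lev := by
      exact_mod_cast h3
    linarith
  rw [Pool.Agent.T9h36.SN.prob_eq, Fintype.sum_prod_type, Fintype.card_prod, Fintype.card_fin]
  push_cast
  have hΩ : (0 : ℝ) < Fintype.card Ω := by exact_mod_cast Fintype.card_pos
  rw [div_le_div_iff₀ (by positivity) (by positivity)]
  have h6 : (∑ ω : Ω, ∑ i : Fin (2 ^ g), if C.reads (x ω i.val) ≠ C.reads (x ω (i.val + 1))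
      then (1 : ℝ) else 0) ≤ Fintype.card Ω * ((levelProduct C lev : ℝ) - 1) := by
    calc (∑ ω : Ω, ∑ i : Fin (2 ^ g), if C.reads (x ω i.val) ≠ C.reads (x ω (i.val + 1))
      then (1 : ℝ) else 0) ≤ ∑ _ω : Ω, ((levelProduct C lev : ℝ) - 1) := by
          apply Finset.sum_le_sum
          intro ω _
          have := h1 ω
          rw [Finset.card_filter] at this
          push_cast at this
          exact this
      _ = _ := by rw [Finset.sum_const, Finset.card_univ, nsmul_eq_mul]
  have h7 : (0 : ℝ) < 2 ^ g := by positivity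
  nlinarith

theorem lower_all (ε : ℝ) (hε : 0 < ε) : ∃ A : ℕ, 0 < A ∧ ∀ n W g : ℕ, W ≤ n →
    g + A * (Nat.log 2 n + 1) ≤ W →
    ∃ (Ω : Type) (_ : Fintype Ω) (_ : Nonempty Ω) (ψ : Ω → ℕ → Formula n (2 ^ W))
      (φ : Ω × (Fin n → Bool) → Formula n (2 ^ W)),
      (∀ ω i, Unsat (ψ ω i) ∧ ∀ j, ψ ω i j ⊆ ψ ω (i + 1) j ∧ (ψ ω i j).card ≤ W + 2) ∧
      (∀ p, Satisfies p.2 (φ p) ∧ ∀ j, (φ p j).card ≤ W + 2) ∧
      ∀ C : Circuit (Fin (2 ^ W) × (Fin n × Bool)),
        prob (fun p : Ω × Fin (2 ^ g) => C.eval (bits (ψ p.1 (p.2.val + 1))) = false) +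
          prob (fun p => C.eval (bits (φ p)) = true) ≤
        1 + prob (fun p : Ω × Fin (2 ^ g) => C.reads (bits (ψ p.1 p.2.val)) ≠
            C.reads (bits (ψ p.1 (p.2.val + 1)))) +
          (C.size + C.numReads + 1 : ℕ) * 2 ^ g / 2 ^ ((1 - ε) * n) ∧
        ∀ lev, IsLevel C lev →
          prob (fun p : Ω × Fin (2 ^ g) => C.reads (bits (ψ p.1 p.2.val)) ≠
            C.reads (bits (ψ p.1 (p.2.val + 1)))) ≤ ((levelProduct C lev : ℝ) - 1) / 2 ^ g := by
  obtain ⟨A, hA, h⟩ := main_all ε hε
  refine ⟨A, hA, fun n W g hW hg => ?_⟩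
  have hn : 0 < n := by
    have : 0 < A * (Nat.log 2 n + 1) := Nat.mul_pos hA (Nat.succ_pos _)
    omega
  obtain ⟨𝒞, h1, h2, Ω, i1, i2, G, F₁, g1, g2, g3⟩ := h n W g hW hg
  set c : Fin (2 ^ W) → Option (SN.Clause n) := fun j => 𝒞.toList[j.val]? with hc
  have hc1 : ∀ C ∈ 𝒞, ∃ j, c j = some C := by
    intro C hC
    have h4 : C ∈ 𝒞.toList := Finset.mem_toList.2 hC
    obtain ⟨i, hi, h5⟩ := List.getElem_of_mem h4
    rw [Finset.length_toList] at hi
    refine ⟨⟨i, by omega⟩, ?_⟩
    simp only [hc]
    rw [List.getElem?_eq_getElem (by rw [Finset.length_toList]; exact hi), h5]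
  have hc2 : ∀ j C, c j = some C → C.card ≤ W := by
    intro j C h4
    simp only [hc] at h4
    have h5 := List.mem_of_getElem? h4
    exact h2 C (Finset.mem_toList.1 h5)
  refine ⟨Ω, i1, i2, fun ω i => form hn c (G ω i), fun p => form hn c (F₁ p), ?_, ?_, ?_⟩
  · intro ω i
    exact ⟨unsat_form hn c _ (fun C hC => hc1 C ((g1 ω i).1 hC)) (g1 ω i).2.1,
      fun j => ⟨form_mono hn c (g1 ω i).2.2 j, card_form hn c W hc2 _ j⟩⟩
  · intro p
    exact ⟨satisfies_form hn c _ _ (g2 p).2, fun j => card_form hn c W hc2 _ j⟩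
  · intro C
    refine ⟨?_, fun lev hlev => ?_⟩
    · have k4 := g3 (tr (sub hn c) C)
      rw [size_tr, numReads_tr] at k4
      have h6 : ∀ F : Finset (SN.Clause n), (tr (sub hn c) C).eval (indicator F) =
          !(C.eval (bits (form hn c F))) := by
        intro F
        exact eval_tr _ C _ _ (pull_sub hn c F)
      have h6' : ∀ F : Finset (SN.Clause n), (tr (sub hn c) C).reads (indicator F) =
          (C.reads (bits (form hn c F))).map (List.map not) := by
        intro F
        exact reads_tr _ C _ _ (pull_sub hn c F)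
      have h7 : (fun p : Ω × Fin (2 ^ g) =>
          (tr (sub hn c) C).eval (indicator (G p.1 (p.2.val + 1))) = true) =
          fun p => C.eval (bits (form hn c (G p.1 (p.2.val + 1)))) = false := by
        funext p
        rw [h6]
        simp
      have h8 : (fun p => (tr (sub hn c) C).eval (indicator (F₁ p)) = false) =
          fun p => C.eval (bits (form hn c (F₁ p))) = true := by
        funext p
        rw [h6]
        simp
      have hinj : Function.Injective (List.map (List.map not)) :=
        List.map_injective_iff.2 (List.map_injective_iff.2 (fun a b h => by simpa using h))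
      have h9 : (fun p : Ω × Fin (2 ^ g) => (tr (sub hn c) C).reads (indicator (G p.1 p.2.val)) ≠
              (tr (sub hn c) C).reads (indicator (G p.1 (p.2.val + 1)))) =
          fun p => C.reads (bits (form hn c (G p.1 p.2.val))) ≠
            C.reads (bits (form hn c (G p.1 (p.2.val + 1)))) := by
        funext p
        rw [h6', h6', ne_eq, hinj.eq_iff]
      rw [h7, h8, h9] at k4
      exact k4
    · apply prob_changes g C (fun ω i => bits (form hn c (G ω i))) _ lev hlev
      intro ω i e he
      simp only [bits, decide_eq_true_eq] at he ⊢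
      exact form_mono hn c (g1 ω i).2.2 _ he

end Pool.Agent.T9h36.SQ
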